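import Pool.Agent.Helper96.VF.GoalsL

/-!
Project VF (MP_6829b3_nt), packet LGS.
-/

set_option autoImplicit false

namespace Pool.Agent.Helper22.VF

open Pool.Agent.Helper96.VF

theorem cop_filter (n d : ℕ) (hd : 0 < d) :
    (Cop n).filter (fun m => d ≤ n / m) = Cop (n / d) := by
  ext m
  simp only [Cop, Finset.mem_filter, Finset.mem_Icc]
  constructor
  · rintro ⟨⟨⟨h1, h2⟩, h3⟩, h4⟩
    refine ⟨⟨h1, ?_⟩, h3⟩
    rw [Nat.le_div_iff_mul_le h1] at h4
    rw [Nat.le_div_iff_mul_le hd, mul_comm]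
    exact h4
  · rintro ⟨⟨h1, h2⟩, h3⟩
    have h5 : m * d ≤ n := by rwa [Nat.le_div_iff_mul_le hd] at h2
    refine ⟨⟨⟨h1, le_trans (Nat.le_mul_of_pos_right m hd) h5⟩, h3⟩, ?_⟩
    rw [Nat.le_div_iff_mul_le h1, mul_comm]
    exact h5

theorem log_card (q y n : ℕ) (hq : 2 ≤ q) (hy : 1 ≤ y) (hyn : y ≤ n) :
    ((Finset.range (Nat.log q n + 1)).filter (fun b => q ^ b ≤ y)).card = Nat.log q y + 1 := by
  have h : (Finset.range (Nat.log q n + 1)).filter (fun b => q ^ b ≤ y) =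
      Finset.range (Nat.log q y + 1) := by
    ext b
    simp only [Finset.mem_filter, Finset.mem_range, Nat.lt_succ_iff]
    constructor
    · rintro ⟨h1, h2⟩
      exact Nat.le_log_of_pow_le hq h2
    · intro h1
      exact ⟨le_trans h1 (Nat.log_mono_right hyn), Nat.pow_le_of_le_log (by omega) h1⟩
  rw [h, Finset.card_range]

theorem sum_eq (q n : ℕ) (hq : 2 ≤ q) :
    (∑ m ∈ Cop n, ((Nat.log q (n / m) : ℝ) + 1)) =
      ∑ b ∈ Finset.range (Nat.log q n + 1), ((Cop (n / q ^ b)).card : ℝ) := by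
  have h1 : ∀ m ∈ Cop n, ((Nat.log q (n / m) : ℝ) + 1) =
      ∑ b ∈ Finset.range (Nat.log q n + 1), if q ^ b ≤ n / m then (1 : ℝ) else 0 := by
    intro m hm
    simp only [Cop, Finset.mem_filter, Finset.mem_Icc] at hm
    rw [Finset.sum_boole, log_card q (n / m) n hq (Nat.div_pos hm.1.2 hm.1.1)
      (Nat.div_le_self _ _)]
    push_cast
    rfl
  rw [Finset.sum_congr rfl h1, Finset.sum_comm]
  refine Finset.sum_congr rfl fun b _ => ?_
  rw [Finset.sum_boole, cop_filter n (q ^ b) (by positivity)]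

theorem gLGS (hCNT : CNT) : LGS := by
  intro q hq
  refine ⟨4, fun n hn => ?_⟩
  rw [sum_eq q n hq]
  set L := Nat.log q n with hL
  have hq' : (2 : ℝ) ≤ q := by exact_mod_cast hq
  have hn' : (1 : ℝ) ≤ n := by exact_mod_cast hn
  have hq1 : (0 : ℝ) < (q : ℝ) - 1 := by linarith
  -- geometric sum
  have hgeo : ∑ b ∈ Finset.range (L + 1), (n : ℝ) / (3 * (q : ℝ) ^ b) =
      (n : ℝ) / 3 * ((q : ℝ) / (q - 1)) - (n : ℝ) / 3 * (1 / ((q - 1) * (q : ℝ) ^ L)) := by
    have : ∀ k : ℕ, ∑ b ∈ Finset.range (k + 1), (n : ℝ) / (3 * (q : ℝ) ^ b) =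
      (n : ℝ) / 3 * ((q : ℝ) / (q - 1)) - (n : ℝ) / 3 * (1 / ((q - 1) * (q : ℝ) ^ k)) := by
      intro k
      induction k with
      | zero =>
        simp only [zero_add, Finset.sum_range_one, pow_zero, mul_one]
        field_simp
      | succ k ih =>
        rw [Finset.sum_range_succ, ih]
        have hqk : (0 : ℝ) < (q : ℝ) ^ k := by positivity
        rw [pow_succ]
        field_simp
        ring
    exact this L
  have hlt : (n : ℝ) < (q : ℝ) ^ L * q := by
    have := Nat.lt_pow_succ_log_self (b := q) (by omega) n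
    rw [← hL, pow_succ] at this
    exact_mod_cast this
  have hpow : (0 : ℝ) < (q : ℝ) ^ L := by positivity
  have htail0 : 0 ≤ (n : ℝ) / 3 * (1 / ((q - 1) * (q : ℝ) ^ L)) := by positivity
  have htail1 : (n : ℝ) / 3 * (1 / ((q - 1) * (q : ℝ) ^ L)) ≤ 1 := by
    rw [mul_one_div, div_div, div_le_one (by positivity)]
    have h1 : (q : ℝ) ≤ 2 * (q - 1) := by linarith
    have h2 : (q : ℝ) ^ L * q ≤ (q : ℝ) ^ L * (2 * (q - 1)) :=
      mul_le_mul_of_nonneg_left h1 hpow.le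
    nlinarith [mul_pos hq1 hpow]
  have hdiff : |∑ b ∈ Finset.range (L + 1), ((Cop (n / q ^ b)).card : ℝ) -
      ∑ b ∈ Finset.range (L + 1), (n : ℝ) / (3 * (q : ℝ) ^ b)| ≤ L + 1 := by
    rw [← Finset.sum_sub_distrib]
    refine le_trans (Finset.abs_sum_le_sum_abs _ _) ?_
    have h3 : ∀ b ∈ Finset.range (L + 1),
        |((Cop (n / q ^ b)).card : ℝ) - (n : ℝ) / (3 * (q : ℝ) ^ b)| ≤ 1 := by
      intro b _
      have h4 := hCNT n (q ^ b) (Nat.one_le_pow _ _ (by omega))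
      push_cast at h4
      exact h4
    refine le_trans (Finset.sum_le_sum h3) ?_
    simp
  have hLlog : (L : ℝ) ≤ 2 * Real.log n := by
    have h1 : q ^ L ≤ n := Nat.pow_log_le_self q (by omega)
    have h2 : (2 : ℝ) ^ L ≤ n := by
      refine le_trans (pow_le_pow_left₀ (by norm_num) hq' L) ?_
      exact_mod_cast h1
    have h3 : Real.log ((2 : ℝ) ^ L) ≤ Real.log n := Real.log_le_log (by positivity) h2
    rw [Real.log_pow] at h3
    have h4 : (0.6931471803 : ℝ) < Real.log 2 := Real.log_two_gt_d9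
    have h5 : (0 : ℝ) ≤ L := Nat.cast_nonneg L
    nlinarith
  have hlog0 : 0 ≤ Real.log n := Real.log_nonneg hn'
  rw [hgeo] at hdiff
  rw [abs_le] at hdiff ⊢
  constructor <;> linarith [hdiff.1, hdiff.2]

end Pool.Agent.Helper22.VF
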