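import Pool.Agent.Helper96.VF.Goals

/-!
Project VF (MP_6829b3_nt), packet S1A.
-/

set_option autoImplicit false

namespace Pool.Agent.Helper22.VF

open Pool.Agent.Helper96.VF

theorem gS1A : S1A := by
  intro f n p₁ q₁ p q h1 h2 h3
  obtain ⟨a1, a2, a3, a4⟩ := h1
  obtain ⟨b1, b2, b3, b4⟩ := h2
  obtain ⟨c1, c2⟩ := h3
  unfold TC
  by_cases hf : f
  · simp only [hf, true_and]
    rcases c1 with c1 | c1 <;> rcases c2 with c2 | c2 <;> omega
  · simp only [hf, true_and, false_and, not_false_eq_true]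
    rcases c1 with c1 | c1 <;> rcases c2 with c2 | c2 <;> omega

end Pool.Agent.Helper22.VF
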